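import Mathlib
import Pool.Agent.W450.EMEvol

/-! From a prime ideal, polynomials and functionals to an evolution of a local domain. -/

set_option autoImplicit false

namespace Pool.Agent.Y103.EM

open MvPolynomial TensorProduct KaehlerDifferential Pool.Agent.W450.EM

/-- the general lemma, with several generators -/
theorem evolN {K σ T R ι : Type*} [Field K] [Fintype σ] [Fintype ι] [CommRing T] [CommRing R]
    [Algebra K T] [Algebra K R] [Algebra (MvPolynomial σ K) T] [Algebra (MvPolynomial σ K) R]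
    [Algebra T R] [IsScalarTower K (MvPolynomial σ K) T] [IsScalarTower K T R]
    [IsScalarTower (MvPolynomial σ K) T R]
    (hs : Function.Surjective (algebraMap T R)) (F : ι → MvPolynomial σ K)
    (hF : ∀ j, algebraMap (MvPolynomial σ K) R (F j) = 0)
    (hd : ∀ j i, algebraMap (MvPolynomial σ K) R (pderiv i (F j)) = 0)
    (hk : ∀ t : T, algebraMap T R t = 0 →
      ∃ s : ι → T, t = ∑ j, s j * algebraMap (MvPolynomial σ K) T (F j)) :
    Function.Bijective (KaehlerDifferential.mapBaseChange K T R) := by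
  refine ⟨?_, KaehlerDifferential.mapBaseChange_surjective K T R hs⟩
  have h1 : ∀ j, (1 : R) ⊗ₜ[T] (D K T (algebraMap (MvPolynomial σ K) T (F j))) = 0 := by
    intro j
    have h2 := der_eq ((D K T).compAlgebraMap (MvPolynomial σ K)) (F j)
    rw [Derivation.compAlgebraMap_apply] at h2
    rw [h2, TensorProduct.tmul_sum]
    apply Finset.sum_eq_zero
    intro i _
    rw [← algebraMap_smul T (pderiv i (F j)), ← TensorProduct.smul_tmul, Algebra.smul_def, mul_one,
      ← IsScalarTower.algebraMap_apply, hd, TensorProduct.zero_tmul]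
  rw [← LinearMap.ker_eq_bot, eq_bot_iff]
  intro x hx
  have hx2 : x ∈ (LinearMap.ker (KaehlerDifferential.mapBaseChange K T R)).restrictScalars T := hx
  rw [← KaehlerDifferential.range_kerCotangentToTensor K T R hs] at hx2
  obtain ⟨y, rfl⟩ := hx2
  obtain ⟨⟨t, ht⟩, rfl⟩ := Ideal.toCotangent_surjective _ y
  rw [KaehlerDifferential.kerCotangentToTensor_toCotangent]
  obtain ⟨s, rfl⟩ := hk t (RingHom.mem_ker.mp ht)
  rw [Submodule.mem_bot]
  change (1 : R) ⊗ₜ[T] (D K T (∑ j, s j * algebraMap (MvPolynomial σ K) T (F j))) = 0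
  rw [map_sum, TensorProduct.tmul_sum]
  apply Finset.sum_eq_zero
  intro j _
  rw [Derivation.leibniz, TensorProduct.tmul_add, TensorProduct.tmul_smul, h1, smul_zero, zero_add,
    ← TensorProduct.smul_tmul, Algebra.smul_def, mul_one, ← IsScalarTower.algebraMap_apply, hF,
    TensorProduct.zero_tmul]

universe u

section

variable {K : Type u} [Field K] {σ : Type} [Fintype σ] {ι : Type} [Fintype ι]

/-- the elements of `P` killed by the functionals -/
noncomputable def J0 (P : Ideal (MvPolynomial σ K)) (q : MvPolynomial σ K →ₐ[K] K)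
    (κ : ι → MvPolynomial σ K →ₗ[K] K) (hκ : ∀ j r g, g ∈ P → κ j (r * g) = q r * κ j g) :
    Ideal (MvPolynomial σ K) where
  carrier := {g | g ∈ P ∧ ∀ j, κ j g = 0}
  add_mem' := by
    rintro a b ⟨ha, ha'⟩ ⟨hb, hb'⟩
    exact ⟨P.add_mem ha hb, fun j => by rw [map_add, ha', hb', add_zero]⟩
  zero_mem' := ⟨P.zero_mem, fun j => map_zero _⟩
  smul_mem' := by
    rintro r g ⟨hg, hg'⟩
    exact ⟨P.mul_mem_left _ hg, fun j => by rw [smul_eq_mul, hκ j r g hg, hg', mul_zero]⟩

/-- The evolution, for an abstract localization. -/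
theorem exists_evolution_aux [DecidableEq ι] (P : Ideal (MvPolynomial σ K)) (hPp : P.IsPrime)
    (q : MvPolynomial σ K →ₐ[K] K) (hP : P ≤ RingHom.ker q) [hqp : (RingHom.ker q).IsPrime]
    (S : Type u) [CommRing S] [Algebra (MvPolynomial σ K) S] [Algebra K S]
    [IsScalarTower K (MvPolynomial σ K) S] [IsLocalization.AtPrime S (RingHom.ker q)]
    [IsLocalRing S] [Algebra.EssFiniteType K S]
    (F : ι → MvPolynomial σ K) (hF : ∀ j, F j ∈ P) (hd : ∀ j i, pderiv i (F j) ∈ P)
    (κ : ι → MvPolynomial σ K →ₗ[K] K) (hκ : ∀ j r g, g ∈ P → κ j (r * g) = q r * κ j g)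
    (c : K) (hc : c ≠ 0) (hκF : ∀ j j', κ j (F j') = if j = j' then c else 0) :
    ∃ (R T : Type u) (_ : CommRing R) (_ : CommRing T) (_ : Algebra K R) (_ : Algebra K T)
      (_ : Algebra T R) (_ : IsScalarTower K T R) (_ : IsLocalRing R) (_ : IsLocalRing T),
      IsDomain R ∧ Algebra.EssFiniteType K R ∧ Algebra.EssFiniteType K T ∧
      Function.Surjective (algebraMap T R) ∧
      Function.Bijective (KaehlerDifferential.mapBaseChange K T R) ∧
      IsLocalRing.maximalIdeal T * RingHom.ker (algebraMap T R) = ⊥ ∧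
      Module.finrank K (RingHom.ker (algebraMap T R)) = Fintype.card ι := by
  classical
  obtain ⟨J1, hJ1⟩ : ∃ J1 : Ideal (MvPolynomial σ K), ∀ g, g ∈ J1 ↔ g ∈ P ∧ ∀ j, κ j g = 0 :=
    ⟨J0 P q κ hκ, fun g => Iff.rfl⟩
  obtain ⟨I, hIdef⟩ : ∃ I : Ideal S, I = P.map (algebraMap (MvPolynomial σ K) S) := ⟨_, rfl⟩
  obtain ⟨J, hJdef⟩ : ∃ J : Ideal S, J = J1.map (algebraMap (MvPolynomial σ K) S) := ⟨_, rfl⟩
  have hJ1P : J1 ≤ P := fun g hg => ((hJ1 g).mp hg).1
  have hJ : J ≤ I := by
    rw [hIdef, hJdef]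
    exact Ideal.map_mono hJ1P
  have hPI : ∀ g ∈ P, algebraMap (MvPolynomial σ K) S g ∈ I := fun g hg => by
    rw [hIdef]
    exact Ideal.mem_map_of_mem _ hg
  have hmI : IsLocalRing.maximalIdeal S * I ≤ J := by
    rw [← IsLocalization.AtPrime.map_eq_maximalIdeal (RingHom.ker q) S, hIdef, hJdef,
      ← Ideal.map_mul]
    refine Ideal.map_mono ?_
    rw [Ideal.mul_le]
    intro r hr g hg
    exact (hJ1 _).mpr ⟨P.mul_mem_left _ hg, fun j => by
      rw [hκ j r g hg, RingHom.mem_ker.mp hr, zero_mul]⟩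
  have hdis : Disjoint ((RingHom.ker q).primeCompl : Set (MvPolynomial σ K)) P := by
    rw [Set.disjoint_left]
    intro g hg hg'
    exact hg (hP hg')
  have hIp : I.IsPrime := by
    rw [hIdef]
    exact IsLocalization.isPrime_of_isPrime_disjoint (RingHom.ker q).primeCompl S _ hPp hdis
  have hI_ne : I ≠ ⊤ := hIp.ne_top
  have hJ_ne : J ≠ ⊤ := fun h => hI_ne (top_le_iff.mp (h ▸ hJ))
  -- the key decomposition
  have key : ∀ s ∈ I, ∃ a : ι → K,
      s - ∑ j, algebraMap (MvPolynomial σ K) S (C (a j) * F j) ∈ J := by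
    intro s hs
    rw [hIdef] at hs
    obtain ⟨⟨⟨g, hg⟩, m⟩, hm⟩ :=
      (IsLocalization.mem_map_algebraMap_iff (RingHom.ker q).primeCompl S).mp hs
    have hqm : q m ≠ 0 := m.2
    have hmu : IsUnit (algebraMap (MvPolynomial σ K) S m) := IsLocalization.map_units S m
    refine ⟨fun j => κ j g / (q m * c), ?_⟩
    have h1 : g - m * ∑ j, C (κ j g / (q m * c)) * F j ∈ J1 := by
      have h0 : (∑ j, C (κ j g / (q m * c)) * F j) ∈ P :=
        P.sum_mem fun j _ => P.mul_mem_left _ (hF j)
      refine (hJ1 _).mpr ⟨P.sub_mem hg (P.mul_mem_left _ h0), fun j => ?_⟩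
      rw [map_sub, hκ j _ _ h0, map_sum]
      have h2 : ∀ j', κ j (C (κ j' g / (q m * c)) * F j') =
          if j = j' then κ j g / q m else 0 := by
        intro j'
        rw [← smul_eq_C_mul, map_smul, hκF, smul_eq_mul]
        split_ifs with h
        · subst h
          field_simp
        · rw [mul_zero]
      rw [Finset.sum_congr rfl fun j' _ => h2 j', Finset.sum_ite_eq, if_pos (Finset.mem_univ _)]
      field_simp
      ring
    have h2 : algebraMap (MvPolynomial σ K) S m *
        (s - ∑ j, algebraMap (MvPolynomial σ K) S (C (κ j g / (q m * c)) * F j)) ∈ J := by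
      have h3 := Ideal.mem_map_of_mem (algebraMap (MvPolynomial σ K) S) h1
      rw [map_sub, map_mul, map_sum] at h3
      have h4 : algebraMap (MvPolynomial σ K) S g = s * algebraMap (MvPolynomial σ K) S m := hm.symm
      rw [h4] at h3
      rw [mul_sub, mul_comm _ s, hJdef]
      exact h3
    exact (Ideal.unit_mul_mem_iff_mem J hmu).mp h2
  -- independence
  have indep : ∀ a : ι → K,
      ∑ j, algebraMap (MvPolynomial σ K) S (C (a j) * F j) ∈ J → ∀ j, a j = 0 := by
    intro a ha j
    rw [hJdef, ← map_sum,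
      IsLocalization.algebraMap_mem_map_algebraMap_iff (RingHom.ker q).primeCompl] at ha
    obtain ⟨m, hm, hm2⟩ := ha
    have h0 : (∑ j, C (a j) * F j) ∈ P := P.sum_mem fun j _ => P.mul_mem_left _ (hF j)
    have h1 := ((hJ1 _).mp hm2).2 j
    rw [hκ j _ _ h0, map_sum] at h1
    have h2 : ∀ j', κ j (C (a j') * F j') = if j = j' then a j * c else 0 := by
      intro j'
      rw [← smul_eq_C_mul, map_smul, hκF, smul_eq_mul]
      split_ifs with h
      · subst h; rfl
      · rw [mul_zero]
    rw [Finset.sum_congr rfl fun j' _ => h2 j', Finset.sum_ite_eq, if_pos (Finset.mem_univ _)] at h1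
    rcases mul_eq_zero.mp h1 with h3 | h3
    · exact absurd h3 hm
    · exact (mul_eq_zero.mp h3).resolve_right hc
  clear hIdef hJdef hJ1 hJ1P
  -- the rings
  let qh : (S ⧸ J) →+* (S ⧸ I) := Ideal.Quotient.factor hJ
  let _ : Algebra (S ⧸ J) (S ⧸ I) :=
    @RingHom.toAlgebra (S ⧸ J) (S ⧸ I) _ (Ideal.Quotient.commSemiring I) qh
  have hmap : ∀ s : S, algebraMap (S ⧸ J) (S ⧸ I) (Ideal.Quotient.mk J s) =
      Ideal.Quotient.mk I s := fun s => rfl
  have : IsScalarTower K (S ⧸ J) (S ⧸ I) := IsScalarTower.of_algebraMap_eq fun c => rfl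
  have : IsScalarTower (MvPolynomial σ K) (S ⧸ J) (S ⧸ I) :=
    IsScalarTower.of_algebraMap_eq fun c => rfl
  have : Nontrivial (S ⧸ I) := Ideal.Quotient.nontrivial_iff.mpr hI_ne
  have : Nontrivial (S ⧸ J) := Ideal.Quotient.nontrivial_iff.mpr hJ_ne
  have hlR : IsLocalRing (S ⧸ I) :=
    IsLocalRing.of_surjective' (Ideal.Quotient.mk I) Ideal.Quotient.mk_surjective
  have hlT : IsLocalRing (S ⧸ J) :=
    IsLocalRing.of_surjective' (Ideal.Quotient.mk J) Ideal.Quotient.mk_surjective
  have hsurj : Function.Surjective (algebraMap (S ⧸ J) (S ⧸ I)) := by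
    intro r
    obtain ⟨s, rfl⟩ := Ideal.Quotient.mk_surjective r
    exact ⟨Ideal.Quotient.mk J s, hmap s⟩
  have hsum : ∀ a : ι → K,
      ∑ j, algebraMap K (S ⧸ J) (a j) * algebraMap (MvPolynomial σ K) (S ⧸ J) (F j) =
        Ideal.Quotient.mk J (∑ j, algebraMap (MvPolynomial σ K) S (C (a j) * F j)) := by
    intro a
    rw [map_sum]
    apply Finset.sum_congr rfl
    intro j _
    rw [map_mul, map_mul]
    congr 1
    change Ideal.Quotient.mk J (algebraMap K S (a j)) = _
    rw [IsScalarTower.algebraMap_apply K (MvPolynomial σ K) S]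
    rfl
  have hkey' : ∀ t : S ⧸ J, algebraMap (S ⧸ J) (S ⧸ I) t = 0 → ∃ a : ι → K,
      t = ∑ j, algebraMap K (S ⧸ J) (a j) * algebraMap (MvPolynomial σ K) (S ⧸ J) (F j) := by
    intro t ht
    obtain ⟨s, rfl⟩ := Ideal.Quotient.mk_surjective t
    rw [hmap, Ideal.Quotient.eq_zero_iff_mem] at ht
    obtain ⟨a, ha⟩ := key s ht
    refine ⟨a, ?_⟩
    rw [hsum, Ideal.Quotient.eq]
    exact ha
  refine ⟨S ⧸ I, S ⧸ J, inferInstance, inferInstance, inferInstance, inferInstance,
    inferInstance, inferInstance, hlR, hlT, ?_, inferInstance, inferInstance,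
    hsurj, ?_, ?_, ?_⟩
  · exact Ideal.Quotient.isDomain I
  · refine evolN hsurj F ?_ ?_ ?_
    · intro j
      exact Ideal.Quotient.eq_zero_iff_mem.mpr (hPI _ (hF j))
    · intro j i
      exact Ideal.Quotient.eq_zero_iff_mem.mpr (hPI _ (hd j i))
    · intro t ht
      obtain ⟨a, ha⟩ := hkey' t ht
      exact ⟨_, ha⟩
  · rw [eq_bot_iff, Ideal.mul_le]
    intro x hx y hy
    obtain ⟨x, rfl⟩ := Ideal.Quotient.mk_surjective x
    obtain ⟨y, rfl⟩ := Ideal.Quotient.mk_surjective y
    have hy' : y ∈ I := by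
      rw [RingHom.mem_ker, hmap, Ideal.Quotient.eq_zero_iff_mem] at hy
      exact hy
    have hx' : x ∈ IsLocalRing.maximalIdeal S := by
      rw [IsLocalRing.mem_maximalIdeal] at hx ⊢
      intro hu
      exact hx (hu.map _)
    rw [Submodule.mem_bot, ← map_mul, Ideal.Quotient.eq_zero_iff_mem]
    exact hmI (Ideal.mul_mem_mul hx' hy')
  · let L : (ι → K) →ₗ[K] (RingHom.ker (algebraMap (S ⧸ J) (S ⧸ I))) :=
      { toFun := fun a => ⟨∑ j, algebraMap K (S ⧸ J) (a j) *
            algebraMap (MvPolynomial σ K) (S ⧸ J) (F j), by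
          rw [RingHom.mem_ker, map_sum]
          apply Finset.sum_eq_zero
          intro j _
          rw [map_mul]
          have : algebraMap (S ⧸ J) (S ⧸ I) (algebraMap (MvPolynomial σ K) (S ⧸ J) (F j)) = 0 :=
            Ideal.Quotient.eq_zero_iff_mem.mpr (hPI _ (hF j))
          rw [this, mul_zero]⟩
        map_add' := by
          intro a b
          apply Subtype.ext
          simp only [Pi.add_apply, map_add, add_mul, Finset.sum_add_distrib]
          rfl
        map_smul' := by
          intro r a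
          apply Subtype.ext
          simp only [Pi.smul_apply, smul_eq_mul, map_mul, RingHom.id_apply]
          change _ = r • (∑ j, algebraMap K (S ⧸ J) (a j) *
            algebraMap (MvPolynomial σ K) (S ⧸ J) (F j))
          rw [Algebra.smul_def, Finset.mul_sum]
          apply Finset.sum_congr rfl
          intro j _
          ring }
    have hL : Function.Bijective L := by
      constructor
      · rw [← LinearMap.ker_eq_bot, eq_bot_iff]
        intro a ha
        have h1 : (∑ j, algebraMap K (S ⧸ J) (a j) *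
            algebraMap (MvPolynomial σ K) (S ⧸ J) (F j)) = 0 :=
          congrArg Subtype.val (LinearMap.mem_ker.mp ha)
        rw [hsum, Ideal.Quotient.eq_zero_iff_mem] at h1
        rw [Submodule.mem_bot]
        funext j
        exact indep a h1 j
      · rintro ⟨t, ht⟩
        obtain ⟨a, ha⟩ := hkey' t ht
        exact ⟨a, Subtype.ext ha.symm⟩
    rw [← (LinearEquiv.ofBijective L hL).finrank_eq]
    simp

/-- The evolution. -/
theorem exists_evolution [DecidableEq ι] (P : Ideal (MvPolynomial σ K)) (hPp : P.IsPrime)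
    (q : MvPolynomial σ K →ₐ[K] K) (hP : P ≤ RingHom.ker q)
    (F : ι → MvPolynomial σ K) (hF : ∀ j, F j ∈ P) (hd : ∀ j i, pderiv i (F j) ∈ P)
    (κ : ι → MvPolynomial σ K →ₗ[K] K) (hκ : ∀ j r g, g ∈ P → κ j (r * g) = q r * κ j g)
    (c : K) (hc : c ≠ 0) (hκF : ∀ j j', κ j (F j') = if j = j' then c else 0) :
    ∃ (R T : Type u) (_ : CommRing R) (_ : CommRing T) (_ : Algebra K R) (_ : Algebra K T)
      (_ : Algebra T R) (_ : IsScalarTower K T R) (_ : IsLocalRing R) (_ : IsLocalRing T),
      IsDomain R ∧ Algebra.EssFiniteType K R ∧ Algebra.EssFiniteType K T ∧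
      Function.Surjective (algebraMap T R) ∧
      Function.Bijective (KaehlerDifferential.mapBaseChange K T R) ∧
      IsLocalRing.maximalIdeal T * RingHom.ker (algebraMap T R) = ⊥ ∧
      Module.finrank K (RingHom.ker (algebraMap T R)) = Fintype.card ι := by
  have hqp : (RingHom.ker q).IsPrime := RingHom.ker_isPrime _
  exact exists_evolution_aux P hPp q hP (Localization.AtPrime (RingHom.ker q)) F hF hd κ hκ c hc
    hκF

end

end Pool.Agent.Y103.EM
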