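import Pool.Agent.Y103.EM.Fun
import Pool.Agent.Y103.EM.Evol

/-! Several copies of the surface. -/

set_option autoImplicit false

namespace Pool.Agent.Y103.EM

open MvPolynomial Pool.Agent.W450.EM

universe u

section

variable (K : Type u) [Field K] (N : ℕ)

/-- the variables of the parametrisation -/
abbrev B (N : ℕ) := Fin N × Bool

/-- the inclusion of the `j`-th copy -/
noncomputable def inn (j : Fin N) : Polynomial (Polynomial K) →ₐ[K] MvPolynomial (B N) K :=
  Polynomial.eval₂AlgHom (Polynomial.aeval (X (j, false))) (X (j, true)) fun _ => Commute.all _ _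

/-- the parametrisation of the product -/
noncomputable def PhiN : MvPolynomial (Fin N × O) K →ₐ[K] MvPolynomial (B N) K :=
  aeval fun p => inn K N p.1 (vals K p.2)

/-- evaluation at the point -/
noncomputable def ptN : MvPolynomial (Fin N × O) K →ₐ[K] K := aeval fun p => ptv K p.2

/-- evaluation of the parameters -/
noncomputable def evB : MvPolynomial (B N) K →ₐ[K] K := aeval fun p => if p.2 then 0 else 1

/-- evaluation of the parameters outside the `j`-th copy -/
noncomputable def outN (j : Fin N) : MvPolynomial (B N) K →ₐ[K] Polynomial (Polynomial K) :=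
  aeval fun p => if p.1 = j then (if p.2 then Polynomial.X else Polynomial.C Polynomial.X) else
    (if p.2 then 0 else 1)

/-- evaluation of the variables outside the `j`-th copy -/
noncomputable def spj (j : Fin N) : MvPolynomial (Fin N × O) K →ₐ[K] MvPolynomial O K :=
  aeval fun p => if p.1 = j then X p.2 else C (ptv K p.2)

/-- the polynomial in the `j`-th copy -/
noncomputable def FN (j : Fin N) : MvPolynomial (Fin N × O) K := rename (Prod.mk j) (FS K)

end

variable {K : Type u} [Field K] {N : ℕ}

theorem inn_X (j : Fin N) : inn K N j Polynomial.X = X (j, true) := by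
  simp [inn, Polynomial.eval₂AlgHom]

theorem inn_C (j : Fin N) (p : Polynomial K) :
    inn K N j (Polynomial.C p) = Polynomial.aeval (X (j, false)) p := by
  simp [inn, Polynomial.eval₂AlgHom]

theorem vals_hom {A : Type*} [CommRing A] [Algebra K A]
    (f : Polynomial (Polynomial K) →ₐ[K] A) (h1 : f (Polynomial.C Polynomial.X) = 1)
    (h0 : f Polynomial.X = 0) (o : O) : f (vals K o) = algebraMap K A (ptv K o) := by
  cases o with
  | none =>
    simp only [vals, ptv, Option.elim]
    rw [Polynomial.C_pow, map_pow, h1, one_pow, map_one]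
  | some i =>
    simp only [vals, ptv, Option.elim]
    rw [map_mul, map_zero, rhoP]
    split_ifs
    · rw [h0, mul_zero]
    · have h2 : f (Polynomial.X ^ 2) = 0 := by rw [map_pow, h0, zero_pow two_ne_zero]
      rw [map_add, h2, h0, add_zero, mul_zero]

theorem evB_PhiN (g : MvPolynomial (Fin N × O) K) : evB K N (PhiN K N g) = ptN K N g := by
  have : (evB K N).comp (PhiN K N) = ptN K N := by
    apply MvPolynomial.algHom_ext
    rintro ⟨j, o⟩
    rw [AlgHom.comp_apply, PhiN, ptN, aeval_X, aeval_X]
    have h := vals_hom ((evB K N).comp (inn K N j)) (by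
      rw [AlgHom.comp_apply, inn_C, Polynomial.aeval_X, evB, aeval_X]; simp) (by
      rw [AlgHom.comp_apply, inn_X, evB, aeval_X]; simp) o
    simpa using h
  exact congrArg (fun l => l g) this

theorem outN_inn_self (j : Fin N) (g : Polynomial (Polynomial K)) :
    outN K N j (inn K N j g) = g := by
  have hX : outN K N j (inn K N j Polynomial.X) = Polynomial.X := by
    rw [inn_X, outN, aeval_X]; simp
  have hC : ∀ p : Polynomial K, outN K N j (inn K N j (Polynomial.C p)) = Polynomial.C p := by
    intro p
    rw [inn_C]
    have h : (outN K N j).comp (Polynomial.aeval (X (j, false))) =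
        (Polynomial.CAlgHom : Polynomial K →ₐ[K] Polynomial (Polynomial K)) := by
      apply Polynomial.algHom_ext
      rw [AlgHom.comp_apply, Polynomial.aeval_X, outN, aeval_X]
      simp
    exact congrArg (fun l => l p) h
  induction g using Polynomial.induction_on with
  | C p => exact hC p
  | add p q hp hq => rw [map_add, map_add, hp, hq]
  | monomial n p h => rw [map_mul, map_mul, map_pow, map_pow, hX, hC]

theorem Phi_spj (j : Fin N) (g : MvPolynomial (Fin N × O) K) :
    Phi K (spj K N j g) = outN K N j (PhiN K N g) := by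
  have : (Phi K).comp (spj K N j) = (outN K N j).comp (PhiN K N) := by
    apply MvPolynomial.algHom_ext
    rintro ⟨j', o⟩
    rw [AlgHom.comp_apply, AlgHom.comp_apply, spj, PhiN, aeval_X, aeval_X]
    by_cases h : j' = j
    · subst h
      rw [if_pos rfl, outN_inn_self, Phi, aeval_X]
    · rw [if_neg h]
      have h2 := vals_hom ((outN K N j).comp (inn K N j')) (by
        rw [AlgHom.comp_apply, inn_C, Polynomial.aeval_X, outN, aeval_X]; simp [h]) (by
        rw [AlgHom.comp_apply, inn_X, outN, aeval_X]; simp [h]) o
      rw [AlgHom.comp_apply] at h2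
      rw [h2]
      simp [Phi]
  exact congrArg (fun l => l g) this

theorem pt_spj (j : Fin N) (g : MvPolynomial (Fin N × O) K) : pt K (spj K N j g) = ptN K N g := by
  have : (pt K).comp (spj K N j) = ptN K N := by
    apply MvPolynomial.algHom_ext
    rintro ⟨j', o⟩
    rw [AlgHom.comp_apply, spj, ptN, aeval_X, aeval_X]
    by_cases h : j' = j
    · subst h
      rw [if_pos rfl, pt, aeval_X]
    · rw [if_neg h]
      simp [pt]
  exact congrArg (fun l => l g) this

theorem PhiN_rename (j : Fin N) (g : MvPolynomial O K) :
    PhiN K N (rename (Prod.mk j) g) = inn K N j (Phi K g) := by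
  have : (PhiN K N).comp (rename (Prod.mk j)) = (inn K N j).comp (Phi K) := by
    apply MvPolynomial.algHom_ext
    intro o
    rw [AlgHom.comp_apply, AlgHom.comp_apply, rename_X, PhiN, Phi, aeval_X, aeval_X]
  exact congrArg (fun l => l g) this

theorem spj_rename_self (j : Fin N) (g : MvPolynomial O K) :
    spj K N j (rename (Prod.mk j) g) = g := by
  have : (spj K N j).comp (rename (Prod.mk j)) = AlgHom.id K _ := by
    apply MvPolynomial.algHom_ext
    intro o
    rw [AlgHom.comp_apply, rename_X, spj, aeval_X, if_pos rfl]
    rfl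
  exact congrArg (fun l => l g) this

theorem spj_rename_ne {j j' : Fin N} (h : j' ≠ j) (g : MvPolynomial O K) :
    spj K N j (rename (Prod.mk j') g) = C (pt K g) := by
  have : (spj K N j).comp (rename (Prod.mk j')) =
      (Algebra.ofId K (MvPolynomial O K)).comp (pt K) := by
    apply MvPolynomial.algHom_ext
    intro o
    rw [AlgHom.comp_apply, rename_X, spj, aeval_X, if_neg h, AlgHom.comp_apply, pt, aeval_X]
    rfl
  exact congrArg (fun l => l g) this

theorem pderiv_rename_ne {j j' : Fin N} (h : j' ≠ j) (o : O) (g : MvPolynomial O K) :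
    pderiv (j', o) (rename (Prod.mk j) g) = 0 := by
  induction g using MvPolynomial.induction_on with
  | C c => rw [rename_C, pderiv_C]
  | add p q hp hq => rw [map_add, map_add, hp, hq, add_zero]
  | mul_X p o' hp =>
    rw [map_mul, rename_X, Derivation.leibniz, hp, pderiv_X_of_ne, smul_zero, smul_zero, add_zero]
    intro h2
    exact h (congrArg Prod.fst h2).symm

theorem PhiN_FN (j : Fin N) : PhiN K N (FN K N j) = 0 := by
  rw [FN, PhiN_rename, Phi_FS, map_zero]

theorem PhiN_pderiv_FN (h601 : (601 : K) ≠ 0) (j : Fin N) (p : Fin N × O) :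
    PhiN K N (pderiv p (FN K N j)) = 0 := by
  obtain ⟨j', o⟩ := p
  by_cases h : j' = j
  · subst h
    have h2 : pderiv (j', o) (FN K N j') = rename (Prod.mk j') (pderiv o (FS K)) :=
      pderiv_rename (Prod.mk_right_injective j') o (FS K)
    rw [h2, PhiN_rename, Phi_pderiv_FS h601, map_zero]
  · rw [FN, pderiv_rename_ne h, map_zero]

/-- the functional of the `j`-th copy -/
noncomputable def kapN (j : Fin N) : MvPolynomial (Fin N × O) K →ₗ[K] K :=
  kapS.comp (spj K N j).toLinearMap

theorem kapN_mul (j : Fin N) (r g : MvPolynomial (Fin N × O) K) (hg : PhiN K N g = 0) :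
    kapN j (r * g) = ptN K N r * kapN j g := by
  have h : Phi K (spj K N j g) = 0 := by rw [Phi_spj, hg, map_zero]
  change kapS (spj K N j (r * g)) = _ * kapS (spj K N j g)
  rw [map_mul, kapS_mul _ _ h, pt_spj]

theorem kapN_FN (j j' : Fin N) :
    kapN j (FN K N j') = if j = j' then (15 : K) else 0 := by
  change kapS (spj K N j (FN K N j')) = _
  split_ifs with h
  · subst h
    rw [FN, spj_rename_self, kapS_FS]
  · rw [FN, spj_rename_ne (Ne.symm h), pt_of_Phi _ Phi_FS, C_0, map_zero]

end Pool.Agent.Y103.EM
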