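import Pool.Agent.Y103.EM.Symb

/-! The containment fails for prime ideals. -/

set_option autoImplicit false

namespace Pool.Agent.Y103.EM

open MvPolynomial

universe u

variable {K : Type u} [Field K] {N : ℕ}

theorem kapN_kill (j : Fin N) {x : MvPolynomial (Fin N × O) K}
    (hx : x ∈ RingHom.ker (ptN K N) * RingHom.ker (PhiN K N)) : kapN j x = 0 := by
  refine Submodule.mul_induction_on hx ?_ ?_
  · intro a ha b hb
    rw [kapN_mul j a b hb, RingHom.mem_ker.mp ha, zero_mul]
  · intro a b ha hb
    rw [map_add, ha, hb, add_zero]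

theorem main_prime (h15 : (15 : K) ≠ 0) (h601 : (601 : K) ≠ 0)
    [hqp : (RingHom.ker (ptN K N)).IsPrime]
    (S : Type*) [CommRing S] [Algebra (MvPolynomial (Fin N × O) K) S]
    [IsLocalization.AtPrime S (RingHom.ker (ptN K N))] [IsLocalRing S] :
    ∃ (I : Ideal S) (f : Fin N → S), I.IsPrime ∧ (∀ j, f j ∈ I) ∧
      (∀ j, ∃ s, s ∉ I ∧ s * f j ∈ I ^ 2) ∧
      ∀ a : Fin N → S, ∑ j, a j * f j ∈ IsLocalRing.maximalIdeal S * I →
        ∀ j, a j ∈ IsLocalRing.maximalIdeal S := by
  classical
  have hPp : (RingHom.ker (PhiN K N)).IsPrime := RingHom.ker_isPrime _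
  have hP : RingHom.ker (PhiN K N) ≤ RingHom.ker (ptN K N) := by
    intro g hg
    rw [RingHom.mem_ker] at hg ⊢
    rw [← evB_PhiN, hg, map_zero]
  have hdis : Disjoint ((RingHom.ker (ptN K N)).primeCompl : Set (MvPolynomial (Fin N × O) K))
      (RingHom.ker (PhiN K N)) := by
    rw [Set.disjoint_left]
    intro g hg hg'
    exact hg (hP hg')
  refine ⟨(RingHom.ker (PhiN K N)).map (algebraMap _ S), fun j => algebraMap _ S (FN K N j),
    IsLocalization.isPrime_of_isPrime_disjoint (RingHom.ker (ptN K N)).primeCompl S _ hPp hdis,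
    fun j => Ideal.mem_map_of_mem _ (RingHom.mem_ker.mpr (PhiN_FN j)), ?_, ?_⟩
  · intro j
    obtain ⟨u, hu, hu2⟩ := FN_symb (K := K) (N := N) h601 j
    refine ⟨algebraMap _ S u, ?_, ?_⟩
    · intro h
      rw [IsLocalization.algebraMap_mem_map_algebraMap_iff
        (RingHom.ker (ptN K N)).primeCompl] at h
      obtain ⟨m, hm, hm2⟩ := h
      rw [RingHom.mem_ker, map_mul] at hm2
      rcases mul_eq_zero.mp hm2 with h1 | h1
      · exact hm (hP (RingHom.mem_ker.mpr h1))
      · exact hu h1
    · rw [← map_mul, ← Ideal.map_pow]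
      exact Ideal.mem_map_of_mem _ hu2
  · intro a ha j
    obtain ⟨b, hb⟩ := IsLocalization.exist_integer_multiples_of_finite
      (RingHom.ker (ptN K N)).primeCompl a
    choose g hg using hb
    have hbu : IsUnit (algebraMap (MvPolynomial (Fin N × O) K) S b) :=
      IsLocalization.map_units S b
    have hg' : ∀ i, algebraMap (MvPolynomial (Fin N × O) K) S (g i) =
        algebraMap (MvPolynomial (Fin N × O) K) S b * a i := by
      intro i
      rw [hg i, Algebra.smul_def]
    have h1 : algebraMap (MvPolynomial (Fin N × O) K) S (∑ i, g i * FN K N i) ∈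
        (RingHom.ker (ptN K N) * RingHom.ker (PhiN K N)).map (algebraMap _ S) := by
      rw [Ideal.map_mul, IsLocalization.AtPrime.map_eq_maximalIdeal (RingHom.ker (ptN K N)) S,
        map_sum]
      have h2 : ∑ i, algebraMap (MvPolynomial (Fin N × O) K) S (g i * FN K N i) =
          algebraMap (MvPolynomial (Fin N × O) K) S b *
            ∑ i, a i * algebraMap (MvPolynomial (Fin N × O) K) S (FN K N i) := by
        rw [Finset.mul_sum]
        apply Finset.sum_congr rfl
        intro i _
        rw [map_mul, hg' i, mul_assoc]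
      rw [h2]
      exact Ideal.mul_mem_left _ _ ha
    rw [IsLocalization.algebraMap_mem_map_algebraMap_iff
      (RingHom.ker (ptN K N)).primeCompl] at h1
    obtain ⟨m, hm, hm2⟩ := h1
    have h3 := kapN_kill j hm2
    have h4 : PhiN K N (∑ i, g i * FN K N i) = 0 := by
      rw [map_sum]
      apply Finset.sum_eq_zero
      intro i _
      rw [map_mul, PhiN_FN, mul_zero]
    rw [kapN_mul j m _ h4, map_sum] at h3
    have h5 : ∀ i, kapN j (g i * FN K N i) = if j = i then ptN K N (g j) * 15 else 0 := by
      intro i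
      rw [kapN_mul j _ _ (PhiN_FN i), kapN_FN]
      split_ifs with h
      · subst h; rfl
      · rw [mul_zero]
    rw [Finset.sum_congr rfl fun i _ => h5 i, Finset.sum_ite_eq,
      if_pos (Finset.mem_univ _)] at h3
    have h6 : ptN K N (g j) = 0 := by
      rcases mul_eq_zero.mp h3 with h7 | h7
      · exact absurd h7 hm
      · exact (mul_eq_zero.mp h7).resolve_right h15
    have h7 : algebraMap (MvPolynomial (Fin N × O) K) S (g j) ∈ IsLocalRing.maximalIdeal S := by
      rw [← IsLocalization.AtPrime.map_eq_maximalIdeal (RingHom.ker (ptN K N)) S]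
      exact Ideal.mem_map_of_mem _ (RingHom.mem_ker.mpr h6)
    rw [hg' j] at h7
    exact (Ideal.unit_mul_mem_iff_mem _ hbu).mp h7

end Pool.Agent.Y103.EM
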