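import Mathlib
import Pool.Agent.W450.EMPoly

/-! The surface: the thirty monomials twisted by a root of a new variable. -/

set_option autoImplicit false

namespace Pool.Agent.Y103.EM

open MvPolynomial Pool.Agent.W450.EM

universe u

/-- weight of a variable as a natural number -/
noncomputable def wn (i : V) : ℕ := (W i).val

theorem wn_cast (i : V) : ((wn i : ℕ) : ZMod 601) = W i := ZMod.natCast_zmod_val _

/-- the variables: a new one, and the old ones -/
abbrev O := Option V

/-- weight of a variable -/
noncomputable def wo (o : O) : ℕ := o.elim 601 wn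
/-- first degree of a variable -/
noncomputable def ao (o : O) : ℕ := o.elim 0 fun i => if (ev i).1 then 0 else 1
/-- second degree of a variable -/
noncomputable def bo (o : O) : ℕ := o.elim 0 fun i => if (ev i).1 then 1 else 0

/-- weight -/
noncomputable def SW : (O →₀ ℕ) →+ ℕ := Finsupp.liftAddHom (fun o => multiplesHom ℕ (wo o))
/-- first degree -/
noncomputable def DA : (O →₀ ℕ) →+ ℕ := Finsupp.liftAddHom (fun o => multiplesHom ℕ (ao o))
/-- second degree -/
noncomputable def DB : (O →₀ ℕ) →+ ℕ := Finsupp.liftAddHom (fun o => multiplesHom ℕ (bo o))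

theorem SW_single (o : O) (n : ℕ) : SW (Finsupp.single o n) = n * wo o := by simp [SW]
theorem DA_single (o : O) (n : ℕ) : DA (Finsupp.single o n) = n * ao o := by simp [DA]
theorem DB_single (o : O) (n : ℕ) : DB (Finsupp.single o n) = n * bo o := by simp [DB]

/-- forget the new variable -/
noncomputable def re : (O →₀ ℕ) →+ (V →₀ ℕ) :=
  Finsupp.liftAddHom (fun o => o.elim 0 fun i => Finsupp.singleAddHom i)

theorem re_none (n : ℕ) : re (Finsupp.single none n) = 0 := by simp [re]
theorem re_some (i : V) (n : ℕ) : re (Finsupp.single (some i) n) = Finsupp.single i n := by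
  simp [re]

theorem sw_re (γ : O →₀ ℕ) : sw (re γ) = (SW γ : ZMod 601) := by
  induction γ using Finsupp.induction_linear with
  | zero => simp
  | add f g hf hg => rw [map_add, map_add, map_add, hf, hg, Nat.cast_add]
  | single o n =>
    cases o with
    | none =>
      rw [re_none, map_zero, SW_single, wo]
      simp only [Option.elim]
      rw [Nat.cast_mul]
      have : ((601 : ℕ) : ZMod 601) = 0 := ZMod.natCast_self 601
      rw [this, mul_zero]
    | some i =>
      rw [re_some, sw_single, SW_single, wo]
      simp only [Option.elim]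
      rw [Nat.cast_mul, wn_cast, nsmul_eq_mul]

theorem da_re (γ : O →₀ ℕ) : da (re γ) = DA γ := by
  induction γ using Finsupp.induction_linear with
  | zero => simp
  | add f g hf hg => rw [map_add, map_add, map_add, hf, hg]
  | single o n =>
    cases o with
    | none => rw [re_none, map_zero, DA_single, ao]; simp
    | some i => rw [re_some, da_single, DA_single, ao]; simp

theorem db_re (γ : O →₀ ℕ) : db (re γ) = DB γ := by
  induction γ using Finsupp.induction_linear with
  | zero => simp
  | add f g hf hg => rw [map_add, map_add, map_add, hf, hg]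
  | single o n =>
    cases o with
    | none => rw [re_none, map_zero, DB_single, bo]; simp
    | some i => rw [re_some, db_single, DB_single, bo]; simp

/-- excluded types -/
theorem excludedO (i : V) (hi : (ev i).1 = false) {γ : O →₀ ℕ}
    (h : (DA γ = 2 ∧ DB γ = 1) ∨ (DA γ = 1 ∧ DB γ = 2) ∨ (DA γ = 0 ∧ DB γ = 3) ∨
      (DA γ = 1 ∧ DB γ = 1)) : W i + (SW γ : ZMod 601) ≠ 0 := by
  rw [← sw_re]
  apply excluded i hi
  rw [da_re, db_re]
  exact h

/-- the old exponent vectors -/
noncomputable def em : (V →₀ ℕ) →+ (O →₀ ℕ) :=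
  Finsupp.liftAddHom (fun i => Finsupp.singleAddHom (some i))

theorem em_single (i : V) (n : ℕ) : em (Finsupp.single i n) = Finsupp.single (some i) n := by
  simp [em]

theorem re_em (α : V →₀ ℕ) : re (em α) = α := by
  induction α using Finsupp.induction_linear with
  | zero => simp
  | add f g hf hg => rw [map_add, map_add, hf, hg]
  | single i n => rw [em_single, re_some]

theorem em_none (α : V →₀ ℕ) : em α none = 0 := by
  induction α using Finsupp.induction_linear with
  | zero => simp
  | add f g hf hg => rw [map_add, Finsupp.add_apply, hf, hg]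
  | single i n => rw [em_single]; simp

theorem em_some (α : V →₀ ℕ) (i : V) : em α (some i) = α i := by
  induction α using Finsupp.induction_linear with
  | zero => simp
  | add f g hf hg => rw [map_add, Finsupp.add_apply, hf, hg, Finsupp.add_apply]
  | single j n => rw [em_single, Finsupp.single_apply, Finsupp.single_apply]; simp

theorem DA_em (α : V →₀ ℕ) : DA (em α) = da α := by rw [← da_re, re_em]
theorem DB_em (α : V →₀ ℕ) : DB (em α) = db α := by rw [← db_re, re_em]
theorem SW_em_cast (α : V →₀ ℕ) : ((SW (em α) : ℕ) : ZMod 601) = sw α := by rw [← sw_re, re_em]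

theorem SW_em (α : V →₀ ℕ) : SW (em α) = ∑ i, α i * wn i := by
  induction α using Finsupp.induction_linear with
  | zero => simp
  | add f g hf hg =>
    rw [map_add, map_add, hf, hg, ← Finset.sum_add_distrib]
    apply Finset.sum_congr rfl
    intro i _
    rw [Finsupp.add_apply, add_mul]
  | single j n =>
    rw [em_single, SW_single, wo, Finset.sum_eq_single j]
    · simp
    · intro i _ hi
      rw [Finsupp.single_apply, if_neg (Ne.symm hi), zero_mul]
    · simp

/-- sum of the weights of the `x` variables -/
noncomputable def A0 : ℕ := ∑ i : V, if (ev i).1 then 0 else wn i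
/-- sum of the weights of the `y` variables -/
noncomputable def B0 : ℕ := ∑ i : V, if (ev i).1 then wn i else 0

theorem sum_SW (L : List (Bool × Fin 15)) :
    ∑ k : Fin 15, SW (em (mexp L k)) = A0 * cnt false L + B0 * cnt true L := by
  have h1 : ∀ k, SW (em (mexp L k)) = ∑ i, mexp L k i * wn i := fun k => SW_em _
  rw [Finset.sum_congr rfl fun k _ => h1 k, Finset.sum_comm, A0, B0, Finset.sum_mul,
    Finset.sum_mul, ← Finset.sum_add_distrib]
  apply Finset.sum_congr rfl
  intro i _
  rw [← Finset.sum_mul, sum_mexp]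
  by_cases h : (ev i).1 = true
  · simp [h, mul_comm]
  · have h' : (ev i).1 = false := by simpa using h
    simp [h', mul_comm]

/-- the power of the new variable needed -/
noncomputable def fl (t : Fin 11) (k : Fin 15) : ℕ := SW (em (mexp (mon t) k)) / 601

theorem fl_mul (t : Fin 11) (k : Fin 15) : 601 * fl t k = SW (em (mexp (mon t) k)) := by
  apply Nat.mul_div_cancel'
  rw [← ZMod.natCast_eq_zero_iff, SW_em_cast, sw_mexp, mon_wt, mul_zero]

/-- a bound -/
noncomputable def N0 : ℕ := ∑ t : Fin 11, ∑ k : Fin 15, fl t k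

theorem fl_le (t : Fin 11) (k : Fin 15) : fl t k ≤ N0 :=
  le_trans (Finset.single_le_sum (f := fun k => fl t k) (fun _ _ => Nat.zero_le _)
    (Finset.mem_univ k)) (Finset.single_le_sum (f := fun t => ∑ k, fl t k)
    (fun _ _ => Nat.zero_le _) (Finset.mem_univ t))

/-- the exponents of the polynomial -/
noncomputable def gam (t : Fin 11) (k : Fin 15) : O →₀ ℕ :=
  Finsupp.single none (N0 - fl t k) + em (mexp (mon t) k)

theorem SW_gam (t : Fin 11) (k : Fin 15) : SW (gam t k) = 601 * N0 := by
  rw [gam, map_add, SW_single, wo, ← fl_mul]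
  simp only [Option.elim]
  have := fl_le t k
  rw [mul_comm, ← mul_add, Nat.sub_add_cancel this]

theorem DA_gam (t : Fin 11) (k : Fin 15) :
    DA (gam t k) = (![3,1,0,4,0,3,2,0,2,1,0] : Fin 11 → ℕ) t := by
  rw [gam, map_add, DA_single, DA_em, da_mexp, cntx]
  simp [ao]

theorem DB_gam (t : Fin 11) (k : Fin 15) :
    DB (gam t k) = (![0,2,3,0,4,2,3,5,4,5,6] : Fin 11 → ℕ) t := by
  rw [gam, map_add, DB_single, DB_em, db_mexp, cnty]
  simp [bo]

theorem gam_some (t : Fin 11) (k : Fin 15) (i : V) : gam t k (some i) = mexp (mon t) k i := by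
  rw [gam, Finsupp.add_apply, em_some]
  simp

theorem gam_none (t : Fin 11) (k : Fin 15) : gam t k none = N0 - fl t k := by
  rw [gam, Finsupp.add_apply, em_none]
  simp

theorem sum_gam_some (t : Fin 11) (i : V) :
    ∑ k : Fin 15, gam t k (some i) = cnt (ev i).1 (mon t) := by
  rw [← sum_mexp]
  exact Finset.sum_congr rfl fun k _ => gam_some t k i

theorem sum_gam_none (t : Fin 11) :
    601 * (∑ k : Fin 15, gam t k none) + (A0 * (![3,1,0,4,0,3,2,0,2,1,0] : Fin 11 → ℕ) t +
      B0 * (![0,2,3,0,4,2,3,5,4,5,6] : Fin 11 → ℕ) t) = 15 * (601 * N0) := by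
  rw [← cntx, ← cnty, ← sum_SW, Finset.mul_sum, ← Finset.sum_add_distrib]
  have h : ∀ k : Fin 15, 601 * gam t k none + SW (em (mexp (mon t) k)) = 601 * N0 := by
    intro k
    rw [gam_none, ← fl_mul, ← mul_add, Nat.sub_add_cancel (fl_le t k)]
  rw [Finset.sum_congr rfl fun k _ => h k, Finset.sum_const, Finset.card_univ, Fintype.card_fin,
    smul_eq_mul]

/-- the identity behind the polynomial -/
theorem sumE {R : Type*} [CommRing R] (A B C T : R) :
    ∑ t : Fin 11, ((coe t : ℤ) : R) *
      ((A * (((![3,1,0,4,0,3,2,0,2,1,0] : Fin 11 → ℕ) t : ℕ) : R) +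
        B * (((![0,2,3,0,4,2,3,5,4,5,6] : Fin 11 → ℕ) t : ℕ) : R) + C) *
      ((T + T ^ 2) ^ ((![3,1,0,4,0,3,2,0,2,1,0] : Fin 11 → ℕ) t) *
        T ^ ((![0,2,3,0,4,2,3,5,4,5,6] : Fin 11 → ℕ) t))) = 0 := by
  simp [Fin.sum_univ_succ, coe]
  ring

end Pool.Agent.Y103.EM
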