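import Pool.Agent.Y103.EM.Data

/-! The parametrisation, the polynomial and the functional. -/

set_option autoImplicit false

namespace Pool.Agent.Y103.EM

open MvPolynomial Pool.Agent.W450.EM

universe u

section

variable (K : Type u) [Field K]

/-- the two parametrising polynomials -/
noncomputable def rhoP (c : Bool) : Polynomial (Polynomial K) :=
  if c then Polynomial.X else Polynomial.X + Polynomial.X ^ 2

/-- the values of the parametrisation -/
noncomputable def vals (o : O) : Polynomial (Polynomial K) :=
  o.elim (Polynomial.C (Polynomial.X ^ 601))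
    fun i => Polynomial.C (Polynomial.X ^ wn i) * rhoP K (ev i).1

/-- the parametrisation -/
noncomputable def Phi : MvPolynomial O K →ₐ[K] Polynomial (Polynomial K) := aeval (vals K)

/-- the coordinates of the point -/
def ptv (o : O) : K := o.elim 1 fun _ => 0

/-- evaluation at the point `(1, 0, …, 0)` -/
noncomputable def pt : MvPolynomial O K →ₐ[K] K := aeval (ptv K)

/-- the polynomial -/
noncomputable def FS : MvPolynomial O K :=
  ∑ t : Fin 11, ((coe t : ℤ) : MvPolynomial O K) * ∑ k : Fin 15, monomial (gam t k) 1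

end

variable {K : Type u} [Field K]

theorem Phi_monomial (γ : O →₀ ℕ) :
    Phi K (monomial γ 1) = Polynomial.C (Polynomial.X ^ SW γ) *
      ((Polynomial.X + Polynomial.X ^ 2) ^ DA γ * Polynomial.X ^ DB γ) := by
  induction γ using Finsupp.induction_linear with
  | zero => simp
  | add f g hf hg =>
    have : (monomial (f + g) 1 : MvPolynomial O K) = monomial f 1 * monomial g 1 := by
      rw [monomial_mul, mul_one]
    rw [this, map_mul, hf, hg, map_add SW, map_add DA, map_add DB, pow_add, pow_add, pow_add,
      Polynomial.C_mul]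
    ring
  | single o n =>
    rw [← X_pow_eq_monomial, map_pow, Phi, aeval_X, SW_single, DA_single, DB_single, vals]
    cases o with
    | none =>
      simp only [Option.elim, wo, ao, bo]
      rw [mul_zero, pow_zero, pow_zero, mul_one, mul_one, ← Polynomial.C_pow, ← pow_mul,
        mul_comm n]
    | some i =>
      simp only [Option.elim, wo, ao, bo]
      rw [mul_pow, ← Polynomial.C_pow, ← pow_mul, mul_comm n (wn i)]
      congr 1
      by_cases hc : (ev i).1 = true
      · simp [hc, rhoP]
      · simp [hc, rhoP]

/-- the value on the monomials of the polynomial -/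
theorem Phi_gam (t : Fin 11) (k : Fin 15) :
    Phi K (monomial (gam t k) 1) = Polynomial.C (Polynomial.X ^ (601 * N0)) *
      ((Polynomial.X + Polynomial.X ^ 2) ^ ((![3,1,0,4,0,3,2,0,2,1,0] : Fin 11 → ℕ) t) *
        Polynomial.X ^ ((![0,2,3,0,4,2,3,5,4,5,6] : Fin 11 → ℕ) t)) := by
  rw [Phi_monomial, SW_gam, DA_gam, DB_gam]

theorem Phi_sum (c : Fin 11 → Fin 15 → ℕ) (A B C : Polynomial (Polynomial K)) (n : ℕ)
    (h : ∀ t, (n : Polynomial (Polynomial K)) * ((∑ k, c t k : ℕ) : Polynomial (Polynomial K)) =
      A * (((![3,1,0,4,0,3,2,0,2,1,0] : Fin 11 → ℕ) t : ℕ) : Polynomial (Polynomial K)) +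
        B * (((![0,2,3,0,4,2,3,5,4,5,6] : Fin 11 → ℕ) t : ℕ) : Polynomial (Polynomial K)) + C) :
    (n : Polynomial (Polynomial K)) *
      Phi K (∑ t : Fin 11, ((coe t : ℤ) : MvPolynomial O K) *
        ∑ k : Fin 15, c t k • monomial (gam t k) 1) = 0 := by
  have h1 : (n : Polynomial (Polynomial K)) *
      Phi K (∑ t : Fin 11, ((coe t : ℤ) : MvPolynomial O K) *
        ∑ k : Fin 15, c t k • monomial (gam t k) 1) =
      Polynomial.C (Polynomial.X ^ (601 * N0)) *
        ∑ t : Fin 11, ((coe t : ℤ) : Polynomial (Polynomial K)) *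
      ((A * (((![3,1,0,4,0,3,2,0,2,1,0] : Fin 11 → ℕ) t : ℕ) : Polynomial (Polynomial K)) +
        B * (((![0,2,3,0,4,2,3,5,4,5,6] : Fin 11 → ℕ) t : ℕ) : Polynomial (Polynomial K)) + C) *
      ((Polynomial.X + Polynomial.X ^ 2) ^ ((![3,1,0,4,0,3,2,0,2,1,0] : Fin 11 → ℕ) t) *
        Polynomial.X ^ ((![0,2,3,0,4,2,3,5,4,5,6] : Fin 11 → ℕ) t))) := by
    rw [map_sum, Finset.mul_sum, Finset.mul_sum]
    apply Finset.sum_congr rfl
    intro t _
    rw [← h t, map_mul, map_intCast, map_sum]
    have h2 : ∀ k : Fin 15, Phi K (c t k • monomial (gam t k) 1) =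
        (c t k : Polynomial (Polynomial K)) * (Polynomial.C (Polynomial.X ^ (601 * N0)) *
      ((Polynomial.X + Polynomial.X ^ 2) ^ ((![3,1,0,4,0,3,2,0,2,1,0] : Fin 11 → ℕ) t) *
        Polynomial.X ^ ((![0,2,3,0,4,2,3,5,4,5,6] : Fin 11 → ℕ) t))) := by
      intro k
      rw [map_nsmul, Phi_gam, nsmul_eq_mul]
    rw [Finset.sum_congr rfl fun k _ => h2 k, ← Finset.sum_mul, Nat.cast_sum]
    ring
  rw [h1, sumE, mul_zero]

theorem Phi_FS : Phi K (FS K) = 0 := by
  have h := Phi_sum (K := K) (fun _ _ => 1) 0 0 15 1 (by
    intro t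
    simp)
  simpa [FS] using h

theorem X_pderiv_FS (o : O) : X o * pderiv o (FS K) =
    ∑ t : Fin 11, ((coe t : ℤ) : MvPolynomial O K) *
        ∑ k : Fin 15, gam t k o • monomial (gam t k) 1 := by
  rw [FS, map_sum, Finset.mul_sum]
  apply Finset.sum_congr rfl
  intro t _
  have h2 : X o * pderiv o (((coe t : ℤ) : MvPolynomial O K) * ∑ k : Fin 15,
      monomial (gam t k) 1) = ((coe t : ℤ) : MvPolynomial O K) * (X o * pderiv o (∑ k : Fin 15,
        monomial (gam t k) 1)) := by
    rw [← zsmul_eq_mul, map_zsmul, mul_smul_comm, zsmul_eq_mul]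
  rw [h2, map_sum, Finset.mul_sum (f := fun k => pderiv o (monomial (gam t k) 1))]
  congr 1
  apply Finset.sum_congr rfl
  intro k _
  rw [X_mul_pderiv_monomial]

theorem Phi_X_ne (o : O) : Phi K (X o) ≠ 0 := by
  rw [Phi, aeval_X, vals]
  cases o with
  | none =>
    simp only [Option.elim]
    rw [Ne, Polynomial.C_eq_zero]
    exact pow_ne_zero _ Polynomial.X_ne_zero
  | some i =>
    simp only [Option.elim]
    apply mul_ne_zero
    · rw [Ne, Polynomial.C_eq_zero]
      exact pow_ne_zero _ Polynomial.X_ne_zero
    · rw [rhoP]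
      split_ifs
      · exact Polynomial.X_ne_zero
      · intro h
        have h1 := congrArg (fun p => Polynomial.coeff p 1) h
        simp [Polynomial.coeff_X_pow] at h1

theorem Phi_pderiv_FS (h601 : (601 : K) ≠ 0) (o : O) : Phi K (pderiv o (FS K)) = 0 := by
  have h0 : Phi K (X o * pderiv o (FS K)) = 0 := by
    rw [X_pderiv_FS]
    cases o with
    | none =>
      have h := Phi_sum (K := K) (fun t k => gam t k none) (-(A0 : Polynomial (Polynomial K)))
        (-(B0 : Polynomial (Polynomial K))) ((15 * (601 * N0) : ℕ) : Polynomial (Polynomial K))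
        601 (by
          intro t
          have h := sum_gam_none t
          have h' := congrArg (fun n : ℕ => (n : Polynomial (Polynomial K))) h
          simp only [Nat.cast_add, Nat.cast_mul] at h' ⊢
          rw [← h']
          ring)
      rcases mul_eq_zero.mp h with h1 | h1
      · exfalso
        apply h601
        have h2 := congrArg (fun p => (Polynomial.coeff (Polynomial.coeff p 0) 0)) h1
        simpa using h2
      · exact h1
    | some i =>
      by_cases hc : (ev i).1 = true
      · have h := Phi_sum (K := K) (fun t k => gam t k (some i)) 0 1 0 1 (by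
          intro t
          rw [sum_gam_some, hc, cnty]
          ring)
        simpa using h
      · have hc' : (ev i).1 = false := by simpa using hc
        have h := Phi_sum (K := K) (fun t k => gam t k (some i)) 1 0 0 1 (by
          intro t
          rw [sum_gam_some, hc', cntx]
          ring)
        simpa using h
  rw [map_mul] at h0
  exact (mul_eq_zero.mp h0).resolve_left (Phi_X_ne o)

/-! ### The functional -/

open Classical in
/-- values of the functional -/
noncomputable def kapV (γ : O →₀ ℕ) : K :=
  if (SW γ : ZMod 601) = 0 then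
    (if DA γ = 4 ∧ DB γ = 0 then 1 else if DA γ = 3 ∧ DB γ = 0 then 2 else 0)
  else 0

/-- the functional -/
noncomputable def kapS : MvPolynomial O K →ₗ[K] K := (basisMonomials O K).constr K kapV

theorem kapS_monomial (γ : O →₀ ℕ) : kapS (monomial γ 1 : MvPolynomial O K) = kapV γ := by
  have := (basisMonomials O K).constr_basis K (kapV (K := K)) γ
  rwa [coe_basisMonomials] at this

open Classical in
/-- the functional on polynomials in one variable which picks a class of exponents -/
noncomputable def lam (i : V) : Polynomial K →ₗ[K] K :=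
  Polynomial.lsum fun e => if W i + (e : ZMod 601) = 0 then LinearMap.id else 0

open Classical in
theorem lam_mul (i : V) (e n : ℕ) : lam i ((Polynomial.X : Polynomial K) ^ e * (n : Polynomial K)) =
    if W i + (e : ZMod 601) = 0 then (n : K) else 0 := by
  rw [← Polynomial.C_eq_natCast, mul_comm, Polynomial.C_mul_X_pow_eq_monomial, lam,
    Polynomial.lsum_apply, Polynomial.sum_monomial_index]
  · split_ifs <;> simp
  · split_ifs <;> simp

theorem coeff3P {R : Type*} [CommRing R] (a b : ℕ) :
    ((Polynomial.X + Polynomial.X ^ 2 : Polynomial R) ^ a * Polynomial.X ^ b).coeff 3 =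
      ((if a + b ≤ 3 then a.choose (3 - (a + b)) else 0 : ℕ) : R) := by
  have h : (Polynomial.X + Polynomial.X ^ 2 : Polynomial R) ^ a * Polynomial.X ^ b =
      (1 + Polynomial.X) ^ a * Polynomial.X ^ (a + b) := by
    have : (Polynomial.X + Polynomial.X ^ 2 : Polynomial R) =
        (1 + Polynomial.X) * Polynomial.X := by ring
    rw [this, mul_pow, pow_add]
    ring
  rw [h, Polynomial.coeff_mul_X_pow']
  split_ifs with h1
  · rw [Polynomial.coeff_one_add_X_pow]
  · simp

/-- auxiliary functional -/
noncomputable def auxS (i : V) : MvPolynomial O K →ₗ[K] K :=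
  (lam i).comp (((Polynomial.lcoeff (Polynomial K) 3).restrictScalars K).comp
    (Phi K).toLinearMap)

theorem auxS_apply (i : V) (g : MvPolynomial O K) : auxS i g = lam i ((Phi K g).coeff 3) := rfl

theorem kapS_some (i : V) (g : MvPolynomial O K) (hg : Phi K g = 0) :
    kapS (X (some i) * g) = 0 := by
  classical
  by_cases hi : (ev i).1 = true
  · have : kapS.comp (LinearMap.mulLeft K (X (some i) : MvPolynomial O K)) = 0 := by
      apply (basisMonomials O K).ext
      intro γ
      rw [coe_basisMonomials, LinearMap.comp_apply, LinearMap.mulLeft_apply, X, monomial_mul,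
        mul_one, kapS_monomial, kapV, LinearMap.zero_apply]
      have h1 : DB (Finsupp.single (some i) 1 + γ) = 1 + DB γ := by
        rw [map_add, DB_single, bo]
        simp [hi]
      rw [h1]
      have h2 : ¬ (1 + DB γ = 0) := by omega
      simp [h2]
    exact congrArg (fun l => l g) this
  · have hi' : (ev i).1 = false := by simpa using hi
    have : kapS.comp (LinearMap.mulLeft K (X (some i) : MvPolynomial O K)) = auxS i := by
      apply (basisMonomials O K).ext
      intro γ
      rw [coe_basisMonomials, LinearMap.comp_apply, LinearMap.mulLeft_apply, X, monomial_mul,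
        mul_one, kapS_monomial, kapV, auxS_apply, Phi_monomial, Polynomial.coeff_C_mul, coeff3P,
        lam_mul]
      have h1 : DB (Finsupp.single (some i) 1 + γ) = DB γ := by
        rw [map_add, DB_single, bo]
        simp [hi']
      have h2 : DA (Finsupp.single (some i) 1 + γ) = 1 + DA γ := by
        rw [map_add, DA_single, ao]
        simp [hi']
      have h3 : ((SW (Finsupp.single (some i) 1 + γ) : ℕ) : ZMod 601) =
          W i + (SW γ : ZMod 601) := by
        rw [map_add, SW_single, wo, one_mul, Nat.cast_add]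
        simp only [Option.elim]
        rw [wn_cast]
      rw [h1, h2, h3]
      by_cases h0 : W i + (SW γ : ZMod 601) = 0
      · rw [if_pos h0, if_pos h0]
        have hex : ¬ ((DA γ = 2 ∧ DB γ = 1) ∨ (DA γ = 1 ∧ DB γ = 2) ∨ (DA γ = 0 ∧ DB γ = 3) ∨
            (DA γ = 1 ∧ DB γ = 1)) := fun h => excludedO i hi' h h0
        generalize DA γ = a at *
        generalize DB γ = b at *
        by_cases hab : a + b ≤ 3
        · rw [if_pos hab]
          have ha : a ≤ 3 := by omega
          have hb : b ≤ 3 := by omega
          interval_cases a <;> interval_cases b <;> simp_all <;> norm_num [Nat.choose]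
        · rw [if_neg hab, if_neg (by omega), if_neg (by omega)]
          simp
      · rw [if_neg h0, if_neg h0]
    have h2 := congrArg (fun l => l g) this
    simp only [LinearMap.comp_apply, LinearMap.mulLeft_apply] at h2
    rw [h2, auxS_apply, hg]
    simp

theorem kapS_none (g : MvPolynomial O K) : kapS (X none * g) = kapS g := by
  classical
  have : kapS.comp (LinearMap.mulLeft K (X none : MvPolynomial O K)) = kapS := by
    apply (basisMonomials O K).ext
    intro γ
    rw [coe_basisMonomials, LinearMap.comp_apply, LinearMap.mulLeft_apply, X, monomial_mul,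
      mul_one, kapS_monomial, kapS_monomial, kapV, kapV]
    have h1 : DB (Finsupp.single none 1 + γ) = DB γ := by
      rw [map_add, DB_single, bo]
      simp
    have h2 : DA (Finsupp.single none 1 + γ) = DA γ := by
      rw [map_add, DA_single, ao]
      simp
    have h3 : ((SW (Finsupp.single none 1 + γ) : ℕ) : ZMod 601) = (SW γ : ZMod 601) := by
      rw [map_add, SW_single, wo, one_mul, Nat.cast_add]
      simp only [Option.elim]
      have : ((601 : ℕ) : ZMod 601) = 0 := ZMod.natCast_self 601
      rw [this, zero_add]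
    rw [h1, h2, h3]
  exact congrArg (fun l => l g) this

theorem kapS_mul (r g : MvPolynomial O K) (hg : Phi K g = 0) :
    kapS (r * g) = pt K r * kapS g := by
  induction r using MvPolynomial.induction_on generalizing g with
  | C c =>
    rw [← smul_eq_C_mul, map_smul, smul_eq_mul, pt, aeval_C]
    rfl
  | add p q hp hq => rw [add_mul, map_add, map_add, add_mul, hp g hg, hq g hg]
  | mul_X p o hp =>
    have h0 : Phi K (X o * g) = 0 := by rw [map_mul, hg, mul_zero]
    rw [mul_assoc, hp _ h0, map_mul (pt K)]
    cases o with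
    | none =>
      rw [kapS_none]
      have : pt K (X none) = 1 := by rw [pt, aeval_X]; rfl
      rw [this, mul_one]
    | some i =>
      rw [kapS_some i g hg]
      have : pt K (X (some i)) = 0 := by rw [pt, aeval_X]; rfl
      rw [this]; simp

theorem kapS_FS : kapS (FS K) = 15 := by
  classical
  have h1 : ∀ t : Fin 11, kapS (((coe t : ℤ) : MvPolynomial O K) * ∑ k : Fin 15,
      monomial (gam t k) 1) = ((coe t : ℤ) : K) * (15 *
        (if (![3,1,0,4,0,3,2,0,2,1,0] : Fin 11 → ℕ) t = 4 ∧
        (![0,2,3,0,4,2,3,5,4,5,6] : Fin 11 → ℕ) t = 0 then 1 else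
      if (![3,1,0,4,0,3,2,0,2,1,0] : Fin 11 → ℕ) t = 3 ∧
        (![0,2,3,0,4,2,3,5,4,5,6] : Fin 11 → ℕ) t = 0 then 2 else 0)) := by
    intro t
    rw [← zsmul_eq_mul, map_zsmul, zsmul_eq_mul, map_sum]
    have h2 : ∀ k : Fin 15, kapS (monomial (gam t k) 1 : MvPolynomial O K) =
        (if (![3,1,0,4,0,3,2,0,2,1,0] : Fin 11 → ℕ) t = 4 ∧
        (![0,2,3,0,4,2,3,5,4,5,6] : Fin 11 → ℕ) t = 0 then 1 else
      if (![3,1,0,4,0,3,2,0,2,1,0] : Fin 11 → ℕ) t = 3 ∧
        (![0,2,3,0,4,2,3,5,4,5,6] : Fin 11 → ℕ) t = 0 then 2 else 0) := by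
      intro k
      rw [kapS_monomial, kapV, SW_gam, DA_gam, DB_gam, if_pos]
      rw [Nat.cast_mul]
      have : ((601 : ℕ) : ZMod 601) = 0 := ZMod.natCast_self 601
      rw [this, zero_mul]
    rw [Finset.sum_congr rfl fun k _ => h2 k, Finset.sum_const, Finset.card_univ,
      Fintype.card_fin, nsmul_eq_mul]
    rfl
  rw [FS, map_sum, Finset.sum_congr rfl fun t _ => h1 t]
  simp [Fin.sum_univ_succ, coe]
  norm_num

/-- the point is on the surface -/
theorem pt_of_Phi (g : MvPolynomial O K) (hg : Phi K g = 0) : pt K g = 0 := by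
  have h : (pt K : MvPolynomial O K →+* K) =
      ((Polynomial.evalRingHom (1 : K)).comp (Polynomial.evalRingHom (0 : Polynomial K))).comp
        (Phi K : MvPolynomial O K →+* Polynomial (Polynomial K)) := by
    apply MvPolynomial.ringHom_ext
    · intro c
      simp [pt, Phi]
    · intro o
      cases o with
      | none => simp [pt, Phi, vals, ptv]
      | some i =>
        simp only [pt, Phi, RingHom.coe_coe, aeval_X, RingHom.comp_apply, vals, ptv, Option.elim]
        rw [rhoP]
        split_ifs <;> simp
  have h2 := congrArg (fun l => l g) h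
  simp only [RingHom.coe_coe, RingHom.comp_apply] at h2
  rw [h2, hg]
  simp

end Pool.Agent.Y103.EM
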