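import Pool.Agent.Y103.EM.Copies
import Pool.Agent.W450.EMTaylor

/-! The polynomial is in the second symbolic power of the prime ideal. -/

set_option autoImplicit false

namespace Pool.Agent.Y103.EM

open MvPolynomial Pool.Agent.W450.EM

universe u

theorem symb_sq_aux {K σ τ : Type*} [Field K] [Fintype σ]
    (φ : MvPolynomial σ K →ₐ[K] MvPolynomial τ K) [hP : (RingHom.ker φ).IsPrime]
    (A : Type*) [CommRing A] [Algebra (MvPolynomial σ K) A] [Algebra K A]
    [IsScalarTower K (MvPolynomial σ K) A] [IsLocalization.AtPrime A (RingHom.ker φ)]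
    (L : Type*) [Field L] [Algebra (MvPolynomial τ K) L] [Algebra K L]
    [IsScalarTower K (MvPolynomial τ K) L] [IsFractionRing (MvPolynomial τ K) L]
    (hl : ∀ b : τ, ∃ g h : MvPolynomial σ K, φ h ≠ 0 ∧ φ g = X b * φ h)
    (f : MvPolynomial σ K) (hf : φ f = 0) (hd : ∀ i, φ (pderiv i f) = 0) :
    ∃ u, φ u ≠ 0 ∧ u * f ∈ (RingHom.ker φ) ^ 2 := by
  classical
  have hinj : Function.Injective (algebraMap (MvPolynomial τ K) L) :=
    IsFractionRing.injective (MvPolynomial τ K) L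
  let g0 : MvPolynomial σ K →ₐ[K] L := (IsScalarTower.toAlgHom K (MvPolynomial τ K) L).comp φ
  have hg0 : ∀ x, g0 x = algebraMap (MvPolynomial τ K) L (φ x) := fun x => rfl
  have hg : ∀ y : (RingHom.ker φ).primeCompl, IsUnit (g0 y) := by
    intro y
    rw [isUnit_iff_ne_zero, hg0]
    intro h
    exact y.2 ((map_eq_zero_iff _ hinj).mp h)
  let φ' : A →ₐ[K] L := IsLocalization.liftAlgHom (M := (RingHom.ker φ).primeCompl) (f := g0) hg
  have hφ' : ∀ x, φ' (algebraMap (MvPolynomial σ K) A x) =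
      algebraMap (MvPolynomial τ K) L (φ x) := fun x => IsLocalization.lift_eq _ _
  obtain ⟨J, hJ⟩ : ∃ J : Ideal A, J = (RingHom.ker φ).map (algebraMap (MvPolynomial σ K) A) :=
    ⟨_, rfl⟩
  have hker : ∀ z : A, φ' z = 0 → z ∈ J := by
    intro z hz
    obtain ⟨⟨g, m⟩, hm⟩ := IsLocalization.surj (RingHom.ker φ).primeCompl z
    have hmu : IsUnit (algebraMap (MvPolynomial σ K) A m) := IsLocalization.map_units A m
    have h1 : φ' (algebraMap (MvPolynomial σ K) A g) = 0 := by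
      rw [← hm, map_mul, hz, zero_mul]
    rw [hφ', map_eq_zero_iff _ hinj] at h1
    have h2 : z * algebraMap (MvPolynomial σ K) A m ∈ J := by
      rw [hm, hJ]
      exact Ideal.mem_map_of_mem _ h1
    exact (Ideal.mul_unit_mem_iff_mem J hmu).mp h2
  have hlift : ∀ b : τ, ∃ z : A, φ' z = algebraMap (MvPolynomial τ K) L (X b) := by
    intro b
    obtain ⟨g, h, hh, hgh⟩ := hl b
    have hmem : h ∈ (RingHom.ker φ).primeCompl := hh
    refine ⟨IsLocalization.mk' A g ⟨h, hmem⟩, ?_⟩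
    have h1 := congrArg φ' (IsLocalization.mk'_spec A g
      (⟨h, hmem⟩ : (RingHom.ker φ).primeCompl))
    rw [map_mul, hφ', hφ', hgh, map_mul] at h1
    have h2 : algebraMap (MvPolynomial τ K) L (φ h) ≠ 0 := fun h3 =>
      hh ((map_eq_zero_iff _ hinj).mp h3)
    exact mul_right_cancel₀ h2 h1
  choose Z hZ using hlift
  let s : MvPolynomial τ K →ₐ[K] A := aeval Z
  have hs : ∀ x, φ' (s x) = algebraMap (MvPolynomial τ K) L x := by
    have : φ'.comp s = IsScalarTower.toAlgHom K (MvPolynomial τ K) L := by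
      apply MvPolynomial.algHom_ext
      intro b
      change φ' (aeval Z (X b)) = _
      rw [aeval_X]
      exact hZ b
    intro x
    exact congrArg (fun l => l x) this
  have ha : ∀ g : MvPolynomial σ K, aeval (fun i => s (φ (X i))) g = s (φ g) := by
    intro g
    have : (aeval fun i => s (φ (X i))) = s.comp φ := by
      ext i
      simp
    rw [this]
    rfl
  have hb : ∀ i, algebraMap (MvPolynomial σ K) A (X i) - s (φ (X i)) ∈ J := by
    intro i
    apply hker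
    rw [map_sub, hφ', hs, sub_self]
  have h := taylor_two (fun i => s (φ (X i)))
    (fun i => algebraMap (MvPolynomial σ K) A (X i) - s (φ (X i))) J hb f
  have e2 : aeval (fun i => s (φ (X i)) + (algebraMap (MvPolynomial σ K) A (X i) - s (φ (X i)))) f =
      algebraMap (MvPolynomial σ K) A f := by
    have h1 : (fun i => s (φ (X i)) + (algebraMap (MvPolynomial σ K) A (X i) - s (φ (X i)))) =
        fun i => algebraMap (MvPolynomial σ K) A (X i) := by
      funext i
      ring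
    rw [h1]
    have h2 : (aeval fun i => algebraMap (MvPolynomial σ K) A (X i)) =
        IsScalarTower.toAlgHom K (MvPolynomial σ K) A := by
      apply MvPolynomial.algHom_ext
      intro i
      rw [aeval_X]
      rfl
    rw [h2]
    rfl
  have e3 : ∑ i, (algebraMap (MvPolynomial σ K) A (X i) - s (φ (X i))) *
      aeval (fun i => s (φ (X i))) (pderiv i f) = 0 :=
    Finset.sum_eq_zero fun i _ => by rw [ha, hd, map_zero, mul_zero]
  rw [e2, ha, hf, map_zero, sub_zero, e3, sub_zero, hJ, ← Ideal.map_pow,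
    IsLocalization.algebraMap_mem_map_algebraMap_iff (RingHom.ker φ).primeCompl] at h
  obtain ⟨m, hm, hm2⟩ := h
  exact ⟨m, hm, hm2⟩

theorem symb_sq {K σ τ : Type*} [Field K] [Fintype σ]
    (φ : MvPolynomial σ K →ₐ[K] MvPolynomial τ K)
    (hl : ∀ b : τ, ∃ g h : MvPolynomial σ K, φ h ≠ 0 ∧ φ g = X b * φ h)
    (f : MvPolynomial σ K) (hf : φ f = 0) (hd : ∀ i, φ (pderiv i f) = 0) :
    ∃ u, φ u ≠ 0 ∧ u * f ∈ (RingHom.ker φ) ^ 2 := by
  have hP : (RingHom.ker φ).IsPrime := RingHom.ker_isPrime _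
  exact symb_sq_aux φ (Localization.AtPrime (RingHom.ker φ)) (FractionRing (MvPolynomial τ K))
    hl f hf hd

section

variable {K : Type u} [Field K] {N : ℕ}

theorem PhiN_none (j : Fin N) : PhiN K N (X (j, none)) = X (j, false) ^ 601 := by
  rw [PhiN, aeval_X]
  simp only [vals, Option.elim]
  rw [inn_C, map_pow, Polynomial.aeval_X]

theorem PhiN_vy (j : Fin N) (l : Fin 15) :
    PhiN K N (X (j, some (vy l))) = X (j, false) ^ wn (vy l) * X (j, true) := by
  rw [PhiN, aeval_X]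
  simp only [vals, Option.elim]
  rw [map_mul, inn_C, map_pow, Polynomial.aeval_X]
  congr 1
  have : (ev (vy l)).1 = true := by simp [vy]
  rw [this, rhoP, if_pos rfl, inn_X]

theorem PhiN_none_ne (j : Fin N) : PhiN K N (X (j, none)) ≠ 0 := by
  rw [PhiN_none]
  exact pow_ne_zero _ (X_ne_zero _)

theorem PhiN_vy_ne (j : Fin N) (l : Fin 15) : PhiN K N (X (j, some (vy l))) ≠ 0 := by
  rw [PhiN_vy]
  exact mul_ne_zero (pow_ne_zero _ (X_ne_zero _)) (X_ne_zero _)

/-- exponents giving the first parameter -/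
theorem exists_exp : ∃ a b b' : ℕ, 601 * b + a * wn (vy 1) = 601 * b' + a * wn (vy 0) + 1 := by
  have h0 : W (vy 1) - W (vy 0) ≠ 0 := delta_ne
  have h1 : ((((W (vy 1) - W (vy 0))⁻¹ : ZMod 601).val : ℤ) * wn (vy 1) -
      (((W (vy 1) - W (vy 0))⁻¹ : ZMod 601).val : ℤ) * wn (vy 0) - 1 : ℤ) =
      (((((W (vy 1) - W (vy 0))⁻¹ : ZMod 601).val : ℤ) * wn (vy 1) -
      (((W (vy 1) - W (vy 0))⁻¹ : ZMod 601).val : ℤ) * wn (vy 0) - 1 : ℤ)) := rfl
  have h2 : (601 : ℤ) ∣ ((((W (vy 1) - W (vy 0))⁻¹ : ZMod 601).val : ℤ) * wn (vy 1) -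
      (((W (vy 1) - W (vy 0))⁻¹ : ZMod 601).val : ℤ) * wn (vy 0) - 1 : ℤ) := by
    have h3 := (ZMod.intCast_zmod_eq_zero_iff_dvd (((((W (vy 1) - W (vy 0))⁻¹ : ZMod 601).val : ℤ) *
      wn (vy 1) - (((W (vy 1) - W (vy 0))⁻¹ : ZMod 601).val : ℤ) * wn (vy 0) - 1 : ℤ)) 601).mp
    apply h3
    push_cast
    rw [ZMod.natCast_zmod_val, wn_cast, wn_cast, ← mul_sub, inv_mul_cancel₀ h0, sub_self]
  obtain ⟨m, hm⟩ := h2
  refine ⟨((W (vy 1) - W (vy 0))⁻¹ : ZMod 601).val, (-m).toNat, m.toNat, ?_⟩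
  have h4 : (m.toNat : ℤ) - ((-m).toNat : ℤ) = m := Int.toNat_sub_toNat_neg m
  zify
  have h5 : (601 : ℤ) * m = 601 * (m.toNat : ℤ) - 601 * ((-m).toNat : ℤ) := by
    rw [← mul_sub, h4]
  linarith

theorem PhiN_lift (p : B N) :
    ∃ g h : MvPolynomial (Fin N × O) K, PhiN K N h ≠ 0 ∧ PhiN K N g = X p * PhiN K N h := by
  obtain ⟨a, b, b', hab⟩ := exists_exp
  obtain ⟨j, c⟩ := p
  have h1 : PhiN K N (X (j, none) ^ b' * X (j, some (vy 0)) ^ a) ≠ 0 := by
    rw [map_mul, map_pow, map_pow]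
    exact mul_ne_zero (pow_ne_zero _ (PhiN_none_ne j)) (pow_ne_zero _ (PhiN_vy_ne j 0))
  have h2 : PhiN K N (X (j, none) ^ b * X (j, some (vy 1)) ^ a) =
      X (j, false) * PhiN K N (X (j, none) ^ b' * X (j, some (vy 0)) ^ a) := by
    simp only [map_mul, map_pow, PhiN_none, PhiN_vy]
    have h3 : (X (j, false) : MvPolynomial (Fin N × Bool) K) ^ (601 * b + a * wn (vy 1)) =
        X (j, false) ^ (601 * b' + a * wn (vy 0) + 1) := by rw [hab]
    have h4 : ∀ x y : MvPolynomial (Fin N × Bool) K, (x ^ 601) ^ b * (x ^ wn (vy 1) * y) ^ a =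
        x ^ (601 * b + a * wn (vy 1)) * y ^ a := by
      intro x y
      rw [mul_pow, ← pow_mul, ← pow_mul, pow_add, mul_comm (wn (vy 1)) a]
      ring
    have h5 : ∀ x y : MvPolynomial (Fin N × Bool) K, x * ((x ^ 601) ^ b' *
        (x ^ wn (vy 0) * y) ^ a) = x ^ (601 * b' + a * wn (vy 0) + 1) * y ^ a := by
      intro x y
      rw [mul_pow, ← pow_mul, ← pow_mul, pow_succ, pow_add, mul_comm (wn (vy 0)) a]
      ring
    rw [h4, h5, h3]
  cases c with
  | false => exact ⟨_, _, h1, h2⟩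
  | true =>
    refine ⟨X (j, some (vy 0)) * (X (j, none) ^ b' * X (j, some (vy 0)) ^ a) ^ wn (vy 0),
      (X (j, none) ^ b * X (j, some (vy 1)) ^ a) ^ wn (vy 0), ?_, ?_⟩
    · rw [map_pow, h2]
      exact pow_ne_zero _ (mul_ne_zero (X_ne_zero _) h1)
    · rw [map_mul, map_pow, map_pow, h2, mul_pow, PhiN_vy]
      ring

/-- the polynomials are in the second symbolic power -/
theorem FN_symb (h601 : (601 : K) ≠ 0) (j : Fin N) :
    ∃ u, PhiN K N u ≠ 0 ∧ u * FN K N j ∈ (RingHom.ker (PhiN K N)) ^ 2 :=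
  symb_sq (PhiN K N) PhiN_lift (FN K N j) (PhiN_FN j) (PhiN_pderiv_FN h601 j)

end

end Pool.Agent.Y103.EM
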